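import Pool.Agent.H688R2.Mu.Final

set_option autoImplicit false

/-!
# Constant-factor approximation of the complex structured singular value is `NP`-hard

Definitions: `Pool/Agent/H688R2/Mu/Defs.lean` and `Pool/Agent/NPC/Defs.lean`.
-/

namespace Pool.Agent.Results.MP_54e0c2_lc.ConstantFactorHard

open Pool.Agent.H688R2.Mu Pool.Agent.NPC

/-- (1) For every gap `δ > 0` there is an `ε > 0` and a reduction which decides gap-3SAT with one
call to any `ε`-approximation of the complex structured singular value: polynomial-time functions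
`G` (from formulas to instances) and `D` (the decision) such that for every nonempty 3-CNF formula
`φ`, `G φ` is a well formed instance and, for every `ε`-approximation `y` of its complex structured
singular value, `D` accepts `(φ, y)` if `φ` is satisfiable and rejects it if at most the fraction
`1 - δ` of the clauses of `φ` can be satisfied.
(2) Hence for every `δ > 0` there is an `ε > 0` such that the conclusion of the PCP theorem for the
gap `δ` implies that the `ε`-approximation problem for the complex structured singular value is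
`NP`-hard.
(3) In particular, by the PCP theorem (`PCP δ` for some `δ > 0`) the `ε`-approximation problem is
`NP`-hard for some `ε > 0`. -/
theorem result :
    (∀ δ : ℝ, 0 < δ → ∃ ε : ℝ, 0 < ε ∧ ∃ F D : List Bool → List Bool, PolyTime F ∧ PolyTime D ∧
      ∀ φ : Cnf3, φ ≠ [] → ∃ I : Inst, F (bits φ) = bits I ∧ Valid I ∧
        ∀ y : ℚ, IsApprox ε I y →
          (Sat3 φ → D (pairBits (bits φ) (bits y)) = [true]) ∧
          (Far3 δ φ → D (pairBits (bits φ) (bits y)) = [false])) ∧
    (∀ δ : ℝ, 0 < δ → ∃ ε : ℝ, 0 < ε ∧ (PCP δ → MuNPHard ε)) ∧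
    ((∃ δ : ℝ, 0 < δ ∧ PCP δ) → ∃ ε : ℝ, 0 < ε ∧ MuNPHard ε) := by
  refine ⟨fun δ hδ => ?_, fun δ hδ => main hδ, ?_⟩
  · obtain ⟨K, q, ε, W, hK, hε, hq, -, h1, h2, h3⟩ := exists_consts hδ
    have p1 : Poly (fun x : List Bool => (unbits Cnf3 x).map (fun φ => red K φ)) :=
      by
        refine Poly.optMap ?_ ?_
        · exact poly_unbits
        · exact (p_redM K).comp (Poly.snd Poly.id)
    have p2 : Poly (fun u : List Bool => ((unbits Cnf3 (unpair u).1).bind (fun φ =>
        (unbits (ℤ × ℕ) (unpair u).2).map
          (fun y => tstM (q.num.natAbs, q.den) φ y))).getD false) := by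
      refine Poly.optGetD (Poly.optBind (f := fun u φ => (unbits (ℤ × ℕ) (unpair u).2).map
        (fun y => tstM (q.num.natAbs, q.den) φ y))
        (poly_unbits.comp (Poly.fst poly_unpair)) ?_) (NPC.Poly.const false)
      refine Poly.optMap ?_ ?_
      · exact poly_unbits.comp (Poly.snd (poly_unpair.comp (Poly.fst Poly.id)))
      · exact p_tstM _ (Poly.snd (Poly.fst Poly.id)) (Poly.snd Poly.id)
    refine ⟨ε, hε, _, _, polyTime_opt p1, polyTime_of_poly p2, fun φ hne => ?_⟩
    refine ⟨red K φ, ?_, inst_valid _ _, fun y hy => ?_⟩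
    · simp only [unbits_bits, Option.map_some]
    · have e : ((unbits Cnf3 (unpair (pairBits (bits φ) (bits y))).1).bind (fun ψ =>
          (unbits (ℤ × ℕ) (unpair (pairBits (bits φ) (bits y))).2).map
            (fun w => tstM (q.num.natAbs, q.den) ψ w))).getD false =
          tstM (q.num.natAbs, q.den) φ (y.num, y.den) := by
        have hb : bits y = bits (y.num, y.den) := rfl
        simp only [unpair_pairBits, unbits_bits, Option.bind_some]
        rw [hb, unbits_bits]
        rfl
      obtain ⟨c1, c2⟩ := correct (δ := δ) hK hε hq h1 h2 h3 hne hy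
      exact ⟨fun h => (congrArg (fun b => [b]) e).trans (by rw [c1 h]),
        fun h => (congrArg (fun b => [b]) e).trans (by rw [c2 h])⟩
  · rintro ⟨δ, hδ, hpcp⟩
    obtain ⟨ε, hε, h⟩ := main hδ
    exact ⟨ε, hε, h hpcp⟩

end Pool.Agent.Results.MP_54e0c2_lc.ConstantFactorHard
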